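import Mathlib

/-!
# Hadwiger's conjecture for the underlying graphs of line digraphs

For a finite digraph `D` without loops the arc graph has the arcs of `D` as vertices; two arcs are
adjacent when the head of one of them is the tail of the other one. These are the underlying graphs of
line digraphs, for instance the shift graphs. If the arc graph is not `k`-colourable, it has a clique
minor whose order grows exponentially with `k`.
-/

set_option autoImplicit false

open Finset

namespace Pool.Agent.Results.MP_b47bfb_co.ArcGraphs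

/-- `K_t` is a minor of `G`: there are `t` pairwise disjoint vertex sets, each inducing a connected
subgraph, any two of them joined by an edge of `G`. -/
def HasCliqueMinor {V : Type} (G : SimpleGraph V) (t : ℕ) : Prop :=
  ∃ f : Fin t → Set V,
    (∀ i, (G.induce (f i)).Connected) ∧
    (∀ i j, i ≠ j → Disjoint (f i) (f j)) ∧
    (∀ i j, i ≠ j → ∃ u ∈ f i, ∃ v ∈ f j, G.Adj u v)

/-- A dominating `K_t` model: moreover every vertex of `f i` has a neighbour in `f j` for `i < j`. -/
def HasDominatingModel {V : Type} (G : SimpleGraph V) (t : ℕ) : Prop :=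
  ∃ f : Fin t → Set V,
    (∀ i, (G.induce (f i)).Connected) ∧
    (∀ i j, i ≠ j → Disjoint (f i) (f j)) ∧
    (∀ i j, i < j → ∀ u ∈ f i, ∃ v ∈ f j, G.Adj u v)

/-- The arc graph of the digraph with arcs `D u v`: its vertices are the arcs, and two arcs are
adjacent when the head of one of them is the tail of the other one. This is the underlying graph of
the line digraph of `D`. -/
def arcGraph {V : Type} (D : V → V → Prop) : SimpleGraph {p : V × V // D p.1 p.2} where
  Adj a b := a ≠ b ∧ (a.1.2 = b.1.1 ∨ b.1.2 = a.1.1)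
  symm := ⟨fun _ _ h => ⟨h.1.symm, h.2.symm⟩⟩
  loopless := ⟨fun _ h => h.1 rfl⟩

theorem HasDominatingModel.minor {V : Type} {G : SimpleGraph V} {t : ℕ}
    (h : HasDominatingModel G t) : HasCliqueMinor G t := by
  obtain ⟨f, h1, h2, h3⟩ := h
  refine ⟨f, h1, h2, fun i j hij => ?_⟩
  rcases lt_or_gt_of_ne hij with h | h
  · obtain ⟨⟨u, hu⟩⟩ := (h1 i).nonempty
    obtain ⟨v, hv, huv⟩ := h3 i j h u hu
    exact ⟨u, hu, v, hv, huv⟩
  · obtain ⟨⟨u, hu⟩⟩ := (h1 j).nonempty
    obtain ⟨v, hv, huv⟩ := h3 j i h u hu
    exact ⟨v, hv, u, hu, huv.symm⟩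

/-- Harner and Entringer: a colouring of the digraph with `C(k, k/2)` colours gives a colouring of
the arc graph with `k` colours. -/
theorem colour_arcs {V : Type} (D : V → V → Prop) (k : ℕ)
    (c : V → Fin (k.choose (k / 2))) (hc : ∀ u v, D u v → c u ≠ c v) :
    (arcGraph D).Colorable k := by
  classical
  let P := {s : Finset (Fin k) // s.card = k / 2}
  have hP : Fintype.card P = k.choose (k / 2) := by
    rw [Fintype.card_finset_len, Fintype.card_fin]
  let e : Fin (k.choose (k / 2)) ≃ P := (finCongr hP.symm).trans (Fintype.equivFin P).symm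
  have h1 : ∀ a : {p : V × V // D p.1 p.2}, ∃ i : Fin k, i ∈ (e (c a.1.1)).1 ∧
      i ∉ (e (c a.1.2)).1 := by
    intro a
    by_contra hcon
    push Not at hcon
    have h2 : (e (c a.1.1)).1 ⊆ (e (c a.1.2)).1 := fun i hi => hcon i hi
    have h3 := Finset.eq_of_subset_of_card_le h2
      (by rw [(e (c a.1.1)).2, (e (c a.1.2)).2])
    exact hc _ _ a.2 (e.injective (Subtype.ext h3))
  choose g hg1 hg2 using h1
  refine ⟨SimpleGraph.Coloring.mk g ?_⟩
  rintro a b ⟨-, h | h⟩ heq
  · have h2 := hg2 a
    rw [h, heq] at h2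
    exact h2 (hg1 b)
  · have h2 := hg2 b
    rw [h, ← heq] at h2
    exact h2 (hg1 a)

/-- A digraph in which every vertex of `W` has at most `d` in-neighbours in `W` can be coloured with
`2 d + 1` colours on `W`. -/
theorem colour_few {V : Type} [DecidableEq V] (R : V → V → Prop) [DecidableRel R]
    (hR : ∀ v, ¬ R v v) (d : ℕ) (n : ℕ) :
    ∀ W : Finset V, W.card = n → (∀ v ∈ W, (W.filter fun u => R u v).card ≤ d) →
      ∃ c : V → Fin (2 * d + 1), ∀ u ∈ W, ∀ v ∈ W, R u v → c u ≠ c v := by
  induction n with
  | zero =>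
    intro W hW _
    rw [Finset.card_eq_zero] at hW
    subst hW
    exact ⟨fun _ => 0, by simp⟩
  | succ n ih =>
    intro W hW hd
    -- a vertex of small total degree
    have hsum : ∑ v ∈ W, ((W.filter fun u => R u v).card + (W.filter fun u => R v u).card) ≤
        W.card * (2 * d) := by
      rw [Finset.sum_add_distrib]
      have h1 : ∑ v ∈ W, (W.filter fun u => R v u).card =
          ∑ v ∈ W, (W.filter fun u => R u v).card := by
        simp only [Finset.card_filter]
        rw [Finset.sum_comm]
      rw [h1]
      have h2 : ∑ v ∈ W, (W.filter fun u => R u v).card ≤ ∑ _v ∈ W, d := Finset.sum_le_sum hd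
      rw [Finset.sum_const, smul_eq_mul] at h2
      nlinarith
    have hex : ∃ v ∈ W, (W.filter fun u => R u v).card + (W.filter fun u => R v u).card ≤ 2 * d := by
      by_contra hcon
      push Not at hcon
      have h3 : ∑ _v ∈ W, (2 * d + 1) ≤
          ∑ v ∈ W, ((W.filter fun u => R u v).card + (W.filter fun u => R v u).card) :=
        Finset.sum_le_sum fun v hv => hcon v hv
      rw [Finset.sum_const, smul_eq_mul] at h3
      have h4 : 0 < W.card := by omega
      nlinarith
    obtain ⟨v, hv, hvd⟩ := hex
    obtain ⟨c, hc⟩ := ih (W.erase v) (by rw [Finset.card_erase_of_mem hv, hW]; rfl) (by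
      intro w hw
      refine le_trans (Finset.card_le_card ?_) (hd w (Finset.mem_of_mem_erase hw))
      exact Finset.filter_subset_filter _ (Finset.erase_subset _ _))
    -- a free colour
    let N := (W.filter fun u => R u v) ∪ (W.filter fun u => R v u)
    have hN : (N.image c).card < Fintype.card (Fin (2 * d + 1)) := by
      rw [Fintype.card_fin]
      have h5 := (Finset.card_image_le (s := N) (f := c)).trans (Finset.card_union_le _ _)
      omega
    obtain ⟨x, -, hx⟩ := Finset.exists_mem_notMem_of_card_lt_card
      (s := N.image c) (t := (univ : Finset (Fin (2 * d + 1)))) (by rw [Finset.card_univ]; exact hN)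
    refine ⟨Function.update c v x, ?_⟩
    intro u hu w hw huw
    by_cases huv : u = v
    · subst huv
      have hwv : w ≠ u := fun h => hR u (h ▸ huw)
      rw [Function.update_self, Function.update_of_ne hwv]
      intro h
      apply hx
      rw [h]
      exact Finset.mem_image_of_mem _ (Finset.mem_union_right _ (Finset.mem_filter.2 ⟨hw, huw⟩))
    · by_cases hwv : w = v
      · subst hwv
        rw [Function.update_self, Function.update_of_ne huv]
        intro h
        apply hx
        rw [← h]
        exact Finset.mem_image_of_mem _ (Finset.mem_union_left _ (Finset.mem_filter.2 ⟨hu, huw⟩))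
      · rw [Function.update_of_ne huv, Function.update_of_ne hwv]
        exact hc u (Finset.mem_erase.2 ⟨huv, hu⟩) w (Finset.mem_erase.2 ⟨hwv, hw⟩) huw

/-- If every vertex has fewer than `t` in-neighbours or fewer than `t` out-neighbours, the digraph
can be coloured with `4 t - 2` colours. -/
theorem colour_all {V : Type} [Fintype V] [DecidableEq V] (R : V → V → Prop) [DecidableRel R]
    (hR : ∀ v, ¬ R v v) (t N : ℕ) (ht : 1 ≤ t) (hN : 4 * t ≤ N + 2)
    (h : ∀ v, (univ.filter fun u => R u v).card < t ∨ (univ.filter fun u => R v u).card < t) :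
    ∃ c : V → Fin N, ∀ u v, R u v → c u ≠ c v := by
  let A := univ.filter fun v : V => (univ.filter fun u => R u v).card < t
  let B := univ.filter fun v : V => ¬ (univ.filter fun u => R u v).card < t
  obtain ⟨c, hc⟩ := colour_few R hR (t - 1) A.card A rfl (by
    intro v hv
    have h1 : (univ.filter fun u => R u v).card < t := (Finset.mem_filter.1 hv).2
    have h2 : (A.filter fun u => R u v).card ≤ (univ.filter fun u => R u v).card :=
      Finset.card_le_card (Finset.filter_subset_filter _ (Finset.subset_univ _))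
    omega)
  obtain ⟨c', hc'⟩ := colour_few (fun u v => R v u) hR (t - 1) B.card B rfl (by
    intro v hv
    have h1 : (univ.filter fun u => R v u).card < t := by
      rcases h v with h3 | h3
      · exact absurd h3 (Finset.mem_filter.1 hv).2
      · exact h3
    have h2 : (B.filter fun u => R v u).card ≤ (univ.filter fun u => R v u).card :=
      Finset.card_le_card (Finset.filter_subset_filter _ (Finset.subset_univ _))
    omega)
  refine ⟨fun v => if v ∈ A then ⟨(c v).1, by omega⟩ else ⟨(c' v).1 + (2 * (t - 1) + 1), by omega⟩, ?_⟩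
  have hB : ∀ v, v ∉ A → v ∈ B := by
    intro v hv
    refine Finset.mem_filter.2 ⟨Finset.mem_univ _, fun h1 => hv (Finset.mem_filter.2 ⟨Finset.mem_univ _, h1⟩)⟩
  intro u v huv heq
  have heq' := congrArg Fin.val heq
  by_cases hu : u ∈ A <;> by_cases hv : v ∈ A
  · simp only [hu, hv, if_true] at heq'
    exact hc u hu v hv huv (Fin.ext heq')
  · simp only [hu, hv, if_true, if_false] at heq'
    have := (c u).2
    omega
  · simp only [hu, hv, if_true, if_false] at heq'
    have := (c v).2
    omega
  · simp only [hu, hv, if_false] at heq'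
    exact hc' v (hB v hv) u (hB u hu) huv (Fin.ext (by omega))

/-- A complete bipartite subgraph with `t` vertices on each side gives a dominating `K_{t+1}` model. -/
theorem model_of_biclique {V : Type} (G : SimpleGraph V) (t : ℕ) (ht : 1 ≤ t) (a b : ℕ → V)
    (ha : ∀ i < t, ∀ j < t, a i = a j → i = j) (hb : ∀ i < t, ∀ j < t, b i = b j → i = j)
    (hab : ∀ i < t, ∀ j < t, G.Adj (a i) (b j)) : HasDominatingModel G (t + 1) := by
  have hne : ∀ i < t, ∀ j < t, a i ≠ b j := fun i hi j hj => (hab i hi j hj).ne
  refine ⟨fun i => if i.1 = 0 then {a 0} else if i.1 = 1 then {b 0} else {a (i.1 - 1), b (i.1 - 1)},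
    ?_, ?_, ?_⟩
  · intro i
    have hi := i.2
    have hs : ∀ (s : Set V) (x : V), s = {x} → (G.induce s).Connected := by
      rintro s x rfl
      rw [SimpleGraph.induce_singleton_eq_top]
      exact SimpleGraph.connected_top
    have hp : ∀ (s : Set V) (x y : V), s = {x, y} → G.Adj x y → (G.induce s).Connected := by
      rintro s x y rfl h
      exact SimpleGraph.induce_pair_connected_of_adj h
    by_cases h1 : i.1 = 0
    · exact hs _ (a 0) (if_pos h1)
    · by_cases h2 : i.1 = 1
      · exact hs _ (b 0) (by dsimp only; rw [if_neg h1, if_pos h2])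
      · exact hp _ (a (i.1 - 1)) (b (i.1 - 1)) (by dsimp only; rw [if_neg h1, if_neg h2])
          (hab _ (by omega) _ (by omega))
  · intro i j hij
    have hi := i.2
    have hj := j.2
    have hij' : i.1 ≠ j.1 := fun h => hij (Fin.ext h)
    dsimp only
    rw [Set.disjoint_left]
    intro x hx hy
    split_ifs at hx hy
    all_goals simp only [Set.mem_singleton_iff, Set.mem_insert_iff] at hx hy
    · omega
    · exact hne 0 (by omega) 0 (by omega) (hx.symm.trans hy)
    · rcases hy with hy | hy
      · have := ha 0 (by omega) _ (by omega) (hx.symm.trans hy); omega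
      · exact hne 0 (by omega) _ (by omega) (hx.symm.trans hy)
    · exact hne 0 (by omega) 0 (by omega) (hy.symm.trans hx)
    · omega
    · rcases hy with hy | hy
      · exact hne _ (by omega) 0 (by omega) (hy.symm.trans hx)
      · have := hb 0 (by omega) _ (by omega) (hx.symm.trans hy); omega
    · rcases hx with hx | hx
      · have := ha 0 (by omega) _ (by omega) (hy.symm.trans hx); omega
      · exact hne 0 (by omega) _ (by omega) (hy.symm.trans hx)
    · rcases hx with hx | hx
      · exact hne _ (by omega) 0 (by omega) (hx.symm.trans hy)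
      · have := hb 0 (by omega) _ (by omega) (hy.symm.trans hx); omega
    · rcases hx with hx | hx <;> rcases hy with hy | hy
      · have := ha _ (by omega) _ (by omega) (hx.symm.trans hy); omega
      · exact hne _ (by omega) _ (by omega) (hx.symm.trans hy)
      · exact hne _ (by omega) _ (by omega) (hy.symm.trans hx)
      · have := hb _ (by omega) _ (by omega) (hx.symm.trans hy); omega
  · intro i j hij
    have hi := i.2
    have hj := j.2
    have hij' : i.1 < j.1 := hij
    dsimp only
    intro u hu
    have hu' : (∃ m < t, u = a m) ∨ (1 ≤ i.1 ∧ ∃ m < t, u = b m) := by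
      split_ifs at hu with h1 h2
      · exact Or.inl ⟨0, by omega, hu⟩
      · exact Or.inr ⟨by omega, 0, by omega, hu⟩
      · rcases hu with hu | hu
        · exact Or.inl ⟨_, by omega, hu⟩
        · exact Or.inr ⟨by omega, _, by omega, hu⟩
    rw [if_neg (by omega)]
    rcases hu' with ⟨m, hm, rfl⟩ | ⟨h1, m, hm, rfl⟩
    · by_cases hj1 : j.1 = 1
      · rw [if_pos hj1]
        exact ⟨b 0, rfl, hab m hm 0 (by omega)⟩
      · rw [if_neg hj1]
        exact ⟨b (j.1 - 1), Or.inr rfl, hab m hm _ (by omega)⟩
    · rw [if_neg (by omega)]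
      exact ⟨a (j.1 - 1), Or.inl rfl, (hab _ (by omega) m hm).symm⟩

theorem enum {V : Type} (s : Finset V) (t : ℕ) (ht : t ≤ s.card) (hne : s.Nonempty) :
    ∃ a : ℕ → V, (∀ i, a i ∈ s) ∧ ∀ i < t, ∀ j < t, a i = a j → i = j := by
  classical
  obtain ⟨x, hx⟩ := hne
  let e := s.equivFin
  refine ⟨fun i => if h : i < s.card then (e.symm ⟨i, h⟩).1 else x, ?_, ?_⟩
  · intro i
    dsimp only
    split_ifs with h
    · exact (e.symm ⟨i, h⟩).2
    · exact hx
  · intro i hi j hj hij
    dsimp only at hij
    rw [dif_pos (by omega), dif_pos (by omega)] at hij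
    have := e.symm.injective (Subtype.ext hij)
    exact congrArg Fin.val this

theorem main {V : Type} [Fintype V] (D : V → V → Prop) (hD : ∀ v, ¬ D v v) (k t : ℕ)
    (h : ¬ (arcGraph D).Colorable k) (ht : 1 ≤ t) (hk : 4 * t ≤ k.choose (k / 2) + 2) :
    HasDominatingModel (arcGraph D) (t + 1) := by
  classical
  by_contra hcon
  apply h
  obtain ⟨c, hc⟩ := colour_all D hD t (k.choose (k / 2)) ht hk (by
    intro v
    by_contra h1
    push Not at h1
    obtain ⟨h1, h2⟩ := h1
    apply hcon
    obtain ⟨a, ha1, ha2⟩ := enum _ t h1 (Finset.card_pos.1 (by omega))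
    obtain ⟨b, hb1, hb2⟩ := enum _ t h2 (Finset.card_pos.1 (by omega))
    simp only [Finset.mem_filter, Finset.mem_univ, true_and] at ha1 hb1
    refine model_of_biclique _ t ht (fun i => ⟨(a i, v), ha1 i⟩) (fun i => ⟨(v, b i), hb1 i⟩) ?_ ?_ ?_
    · intro i hi j hj hij
      exact ha2 i hi j hj (congrArg (fun p => p.1.1) hij)
    · intro i hi j hj hij
      exact hb2 i hi j hj (congrArg (fun p => p.1.2) hij)
    · intro i hi j hj
      refine ⟨?_, Or.inl rfl⟩
      intro h3
      have h4 : a i = v := congrArg (fun p => p.1.1) h3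
      exact hD v (h4 ▸ ha1 i))
  exact colour_arcs D k c hc

theorem choose_three (k : ℕ) (hk : 7 ≤ k) : 4 * k ≤ k.choose (k / 2) + 2 := by
  have h1 : k.choose 3 ≤ k.choose (k / 2) := Nat.choose_le_middle 3 k
  obtain ⟨m, rfl⟩ : ∃ m, k = m + 7 := ⟨k - 7, by omega⟩
  have h2 : (m + 7).choose 3 * 6 = (m + 7) * (m + 6) * (m + 5) := by
    have h3 := Nat.descFactorial_eq_factorial_mul_choose (m + 7) 3
    have e : m + 7 - 2 = m + 5 := by omega
    have e1 : m + 7 - 1 = m + 6 := by omega
    have h4 : (m + 7).descFactorial 3 = (m + 5) * ((m + 6) * (m + 7)) := by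
      simp only [Nat.descFactorial, e, e1, mul_one, Nat.sub_zero]
    have h5 : Nat.factorial 3 = 6 := rfl
    rw [h4, h5] at h3
    calc (m + 7).choose 3 * 6 = 6 * (m + 7).choose 3 := by ring
      _ = (m + 5) * ((m + 6) * (m + 7)) := h3.symm
      _ = (m + 7) * (m + 6) * (m + 5) := by ring
  have h6 : (m + 7) * (m + 6) * (m + 5) = m ^ 3 + 18 * m ^ 2 + 107 * m + 210 := by ring
  have h7 : 0 ≤ m ^ 3 + 18 * m ^ 2 := Nat.zero_le _
  omega

/-- Let `D` be a finite digraph without loops and `G` its arc graph, the underlying graph of the line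
digraph of `D`. If `G` is not `k`-colourable then it has a dominating `K_{t+1}` model for every
`t ≥ 1` with `4 t ≤ C(k, ⌊k/2⌋) + 2`; in particular a `K_k` minor if `k ≥ 6`, and even a dominating
`K_{k+1}` model if `k ≥ 7`. -/
theorem result (V : Type) [Fintype V] (D : V → V → Prop) (hD : ∀ v, ¬ D v v) (k : ℕ)
    (h : ¬ (arcGraph D).Colorable k) :
    (∀ t, 1 ≤ t → 4 * t ≤ k.choose (k / 2) + 2 → HasDominatingModel (arcGraph D) (t + 1)) ∧
    (6 ≤ k → HasCliqueMinor (arcGraph D) k) ∧
    (7 ≤ k → HasDominatingModel (arcGraph D) (k + 1) ∧ HasCliqueMinor (arcGraph D) (k + 1)) := by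
  refine ⟨fun t ht hk => main D hD k t h ht hk, fun hk => ?_, fun hk => ?_⟩
  · rcases Nat.lt_or_ge k 7 with h7 | h7
    · obtain rfl : k = 6 := by omega
      exact (main D hD 6 5 h (by norm_num) (by decide)).minor
    · have h1 := choose_three k h7
      obtain ⟨m, rfl⟩ : ∃ m, k = m + 1 := ⟨k - 1, by omega⟩
      exact (main D hD (m + 1) m h (by omega) (by omega)).minor
  · have h1 := main D hD k k h (by omega) (choose_three k hk)
    exact ⟨h1, h1.minor⟩

end Pool.Agent.Results.MP_b47bfb_co.ArcGraphs
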