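import Mathlib

set_option autoImplicit false

namespace Pool.Agent.Results.MP_b47bfb_co.ExchangeGraphs

open Finset

variable {α : Type*} [DecidableEq α]

/-- The unit vector of the coordinate `i`. -/
def e (i : α) : α → ℤ := Pi.single i 1

/-- The simultaneous exchange axiom of an M-convex set of integer vectors: if `x, y ∈ B` and
`x u > y u`, then there is a coordinate `v` with `x v < y v` such that both `x - e u + e v` and
`y + e u - e v` lie in `B`. -/
def MConvex (B : Set (α → ℤ)) : Prop :=
  ∀ x ∈ B, ∀ y ∈ B, ∀ u, y u < x u →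
    ∃ v, x v < y v ∧ x - e u + e v ∈ B ∧ y + e u - e v ∈ B

/-- The exchange graph of `B`: the vertices are the elements of `B`, and `x` is adjacent to `y` iff
`y = x - e i + e j` for two distinct coordinates `i`, `j`. -/
def exchangeGraph (B : Set (α → ℤ)) : SimpleGraph B where
  Adj x y := ∃ i j, i ≠ j ∧ (y : α → ℤ) = (x : α → ℤ) - e i + e j
  symm := by
    constructor
    rintro x y ⟨i, j, hij, h⟩
    refine ⟨j, i, hij.symm, ?_⟩
    rw [h]; abel
  loopless := by
    constructor
    rintro x ⟨i, j, hij, h⟩
    have := congrFun h i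
    simp [e, hij] at this
    omega

lemma ap (x : α → ℤ) (i j a : α) :
    (x - e i + e j) a = x a - (if a = i then 1 else 0) + (if a = j then 1 else 0) := by
  simp [e, Pi.single_apply]

lemma exists_gt {B : Set (α → ℤ)} (hB : MConvex B) {x y : α → ℤ} (hx : x ∈ B) (hy : y ∈ B)
    (hne : x ≠ y) : ∃ u, y u < x u := by
  by_contra hcon
  push Not at hcon
  obtain ⟨u, hu⟩ : ∃ u, x u ≠ y u := by
    by_contra h
    push Not at h
    exact hne (funext h)
  obtain ⟨v, hv, -, -⟩ := hB y hy x hx u (lt_of_le_of_ne (hcon u) hu)
  exact absurd hv (not_lt.mpr (hcon v))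

/-- the distance -/
def d [Fintype α] (x y : α → ℤ) : ℕ := ∑ i, (x i - y i).natAbs

lemma d_lt [Fintype α] {x y : α → ℤ} {u v : α} (hu : y u < x u) (hv : x v < y v) :
    d (x - e u + e v) y < d x y := by
  have huv : u ≠ v := by
    rintro rfl
    omega
  unfold d
  apply Finset.sum_lt_sum
  · intro i _
    rw [ap]
    by_cases h1 : i = u
    · subst h1
      rw [if_pos rfl, if_neg huv]
      omega
    · by_cases h2 : i = v
      · subst h2
        rw [if_neg h1, if_pos rfl]
        omega
      · rw [if_neg h1, if_neg h2]
        omega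
  · refine ⟨u, mem_univ _, ?_⟩
    rw [ap, if_pos rfl, if_neg huv]
    omega

/-- `P` is closed under taking coordinatewise intermediate vectors. -/
def Between (P : (α → ℤ) → Prop) : Prop :=
  ∀ x y z : α → ℤ, P x → P y →
    (∀ i, (x i ≤ z i ∧ z i ≤ y i) ∨ (y i ≤ z i ∧ z i ≤ x i)) → P z

lemma reach [Fintype α] {B : Set (α → ℤ)} (hB : MConvex B) (P : (α → ℤ) → Prop)
    (hP : Between P) : ∀ (n : ℕ) (x y : B) (hx : P x) (hy : P y), d (x : α → ℤ) y = n →
      ((exchangeGraph B).induce {z : B | P z}).Reachable ⟨x, hx⟩ ⟨y, hy⟩ := by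
  intro n
  induction n using Nat.strong_induction_on with
  | _ n ih =>
    intro x y hx hy hd
    by_cases hxy : (x : α → ℤ) = y
    · have : x = y := Subtype.ext hxy
      subst this
      exact SimpleGraph.Reachable.refl _
    · obtain ⟨u, hu⟩ := exists_gt hB x.2 y.2 hxy
      obtain ⟨v, hv, h1, -⟩ := hB x x.2 y y.2 u hu
      have huv : u ≠ v := by
        rintro rfl
        omega
      have hPz : P ((x : α → ℤ) - e u + e v) := by
        apply hP x y _ hx hy
        intro i
        rw [ap]
        by_cases h3 : i = u
        · subst h3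
          rw [if_pos rfl, if_neg huv]
          omega
        · by_cases h4 : i = v
          · subst h4
            rw [if_neg h3, if_pos rfl]
            omega
          · rw [if_neg h3, if_neg h4]
            omega
      have hlt := d_lt hu hv
      have hrec := ih (d ((x : α → ℤ) - e u + e v) y) (by omega) ⟨_, h1⟩ y hPz hy rfl
      refine SimpleGraph.Reachable.trans (SimpleGraph.Adj.reachable ?_) hrec
      show (exchangeGraph B).Adj x ⟨_, h1⟩
      exact ⟨u, v, huv, rfl⟩

lemma connected [Fintype α] {B : Set (α → ℤ)} (hB : MConvex B) (P : (α → ℤ) → Prop)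
    (hP : Between P) (x : B) (hx : P x) :
    ((exchangeGraph B).induce {z : B | P z}).Connected := by
  have : Nonempty {z : B | P z} := ⟨⟨x, hx⟩⟩
  refine SimpleGraph.Connected.mk ?_
  rintro ⟨a, ha⟩ ⟨b, hb⟩
  exact reach hB P hP _ a b ha hb rfl

/-- the exchange graph on the coordinates at `x₀` -/
def D (B : Set (α → ℤ)) (x₀ : α → ℤ) : SimpleGraph α where
  Adj i j := i ≠ j ∧ (x₀ - e i + e j ∈ B ∨ x₀ - e j + e i ∈ B)
  symm := by
    constructor
    rintro i j ⟨h1, h2⟩
    exact ⟨h1.symm, h2.symm⟩
  loopless := by
    constructor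
    rintro i ⟨h1, -⟩
    exact h1 rfl

lemma sum_K (K : Finset α) (x : α → ℤ) (u v : α) :
    ∑ i ∈ K, (x - e u + e v) i
      = ∑ i ∈ K, x i - (if u ∈ K then 1 else 0) + (if v ∈ K then 1 else 0) := by
  simp only [ap, Finset.sum_add_distrib, Finset.sum_sub_distrib]
  simp

lemma sep [Fintype α] {B : Set (α → ℤ)} (hB : MConvex B) {x₀ : α → ℤ} (hx₀ : x₀ ∈ B)
    (K : Finset α) (hK : ∀ i j, (D B x₀).Adj i j → (i ∈ K ↔ j ∈ K)) :
    ∀ (n : ℕ) (x : α → ℤ), x ∈ B → d x x₀ = n → ∑ i ∈ K, x i = ∑ i ∈ K, x₀ i := by
  intro n
  induction n using Nat.strong_induction_on with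
  | _ n ih =>
    intro x hx hd
    by_cases hxx : x = x₀
    · rw [hxx]
    · obtain ⟨u, hu⟩ := exists_gt hB hx hx₀ hxx
      obtain ⟨v, hv, h1, h2⟩ := hB x hx x₀ hx₀ u hu
      have huv : u ≠ v := by
        rintro rfl
        omega
      have hadj : (D B x₀).Adj u v := by
        refine ⟨huv, Or.inr ?_⟩
        have : x₀ - e v + e u = x₀ + e u - e v := by abel
        rw [this]
        exact h2
      have hlt := d_lt hu hv
      have hrec := ih _ (by omega) _ h1 rfl
      rw [← hrec, sum_K]
      by_cases huK : u ∈ K
      · rw [if_pos huK, if_pos ((hK u v hadj).mp huK)]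
        ring
      · rw [if_neg huK, if_neg (fun h => huK ((hK u v hadj).mpr h))]
        ring

lemma colorable [Fintype α] {B : Set (α → ℤ)} (hB : MConvex B) {x₀ : α → ℤ} (hx₀ : x₀ ∈ B)
    (k : ℕ) [NeZero k] (hk : ∀ c : (D B x₀).ConnectedComponent, c.supp.ncard ≤ k) :
    (exchangeGraph B).Colorable k := by
  classical
  have hg : ∀ c : (D B x₀).ConnectedComponent, ∃ g : α → ZMod k, Set.InjOn g c.supp := by
    intro c
    have hc : Fintype.card c.supp ≤ Fintype.card (ZMod k) := by
      rw [ZMod.card, ← Set.toFinset_card, ← Set.ncard_eq_toFinset_card']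
      exact hk c
    obtain ⟨φ⟩ := Function.Embedding.nonempty_of_card_le hc
    refine ⟨fun a => if h : a ∈ c.supp then φ ⟨a, h⟩ else 0, ?_⟩
    intro a ha b hb hab
    simp only [dif_pos ha, dif_pos hb] at hab
    exact congrArg Subtype.val (φ.injective hab)
  choose g hg using hg
  let lab : α → ZMod k := fun i => g ((D B x₀).connectedComponentMk i) i
  have hlab : ∀ i j, (D B x₀).connectedComponentMk i = (D B x₀).connectedComponentMk j →
      lab i = lab j → i = j := by
    intro i j hij hl
    apply hg ((D B x₀).connectedComponentMk i)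
    · simp
    · simp [hij]
    · simp only [lab] at hl
      rw [← hij] at hl
      exact hl
  let C : B → ZMod k := fun x => ∑ i, lab i * ((x : α → ℤ) i : ZMod k)
  have hC : ∀ x y : B, (exchangeGraph B).Adj x y → C x ≠ C y := by
    rintro x y ⟨i, j, hij, h⟩ hxy
    -- `i` and `j` lie in one component
    have hcomp : (D B x₀).connectedComponentMk i = (D B x₀).connectedComponentMk j := by
      let K : Finset α := univ.filter
        (fun a => (D B x₀).connectedComponentMk a = (D B x₀).connectedComponentMk i)
      have hK : ∀ a b, (D B x₀).Adj a b → (a ∈ K ↔ b ∈ K) := by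
        intro a b hab
        have : (D B x₀).connectedComponentMk a = (D B x₀).connectedComponentMk b :=
          SimpleGraph.ConnectedComponent.sound hab.reachable
        simp only [K, Finset.mem_filter, Finset.mem_univ, true_and, this]
      have s1 := sep hB hx₀ K hK _ x x.2 rfl
      have s2 := sep hB hx₀ K hK _ y y.2 rfl
      rw [h, sum_K, s1] at s2
      have hiK : i ∈ K := by simp [K]
      rw [if_pos hiK] at s2
      by_contra hne
      have hjK : j ∉ K := by
        simp only [K, Finset.mem_filter, Finset.mem_univ, true_and]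
        exact fun hh => hne hh.symm
      rw [if_neg hjK] at s2
      omega
    have hsum : C y = C x - lab i + lab j := by
      simp only [C]
      rw [h]
      have : ∀ a, lab a * (((((x : α → ℤ) - e i + e j) a : ℤ)) : ZMod k)
          = lab a * ((x : α → ℤ) a : ZMod k) - (if a = i then lab a else 0)
            + (if a = j then lab a else 0) := by
        intro a
        rw [ap]
        push_cast
        split_ifs <;> ring
      rw [Finset.sum_congr rfl (fun a _ => this a), Finset.sum_add_distrib,
        Finset.sum_sub_distrib]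
      simp
    rw [← hxy] at hsum
    apply hij
    apply hlab i j hcomp
    have : C x + lab i = C x + lab j := by
      calc C x + lab i = (C x - lab i + lab j) + lab i := by rw [← hsum]
        _ = C x + lab j := by ring
    exact add_left_cancel this
  have := (SimpleGraph.Coloring.mk C (fun {x y} hxy => hC x y hxy)).colorable
  rwa [ZMod.card] at this

/-- an ordering of `t + 1` coordinates of a component with connected prefixes -/
lemma ordering [Fintype α] (G : SimpleGraph α) (c : G.ConnectedComponent) (t : ℕ)
    (ht : t < c.supp.ncard) :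
    ∃ f : ℕ → α, (∀ i ≤ t, f i ∈ c.supp) ∧ (∀ i ≤ t, ∀ j ≤ t, f i = f j → i = j) ∧
      ∀ i, 1 ≤ i → i ≤ t → ∃ j < i, G.Adj (f i) (f j) := by
  classical
  induction t with
  | zero =>
    obtain ⟨a, ha⟩ := c.nonempty_supp
    refine ⟨fun _ => a, fun _ _ => ha, fun i hi j hj _ => by omega, fun i h1 h2 => by omega⟩
  | succ t ih =>
    obtain ⟨f, h1, h2, h3⟩ := ih (by omega)
    -- the prefix is not closed
    let S : Finset α := (Finset.range (t + 1)).image f
    have hSc : ∀ a ∈ S, a ∈ c.supp := by
      intro a ha
      rw [Finset.mem_image] at ha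
      obtain ⟨i, hi, rfl⟩ := ha
      exact h1 i (by rw [Finset.mem_range] at hi; omega)
    have hScard : S.card ≤ t + 1 := by
      refine le_trans Finset.card_image_le ?_
      simp
    obtain ⟨b, hb, hbS⟩ : ∃ b ∈ c.supp, b ∉ S := by
      by_contra hcon
      push Not at hcon
      have : c.supp ⊆ (S : Set α) := fun b hb => hcon b hb
      have := Set.ncard_le_ncard this (Finset.finite_toSet S)
      rw [Set.ncard_coe_finset] at this
      omega
    obtain ⟨a, ha, a', ha', haa⟩ : ∃ a ∈ S, ∃ a', a' ∉ S ∧ G.Adj a a' := by
      by_contra hcon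
      push Not at hcon
      have hreach : G.Reachable (f 0) b := by
        have e1 : G.connectedComponentMk (f 0) = c := h1 0 (by omega)
        have e2 : G.connectedComponentMk b = c := hb
        exact SimpleGraph.ConnectedComponent.exact (e1.trans e2.symm)
      obtain ⟨p⟩ := hreach
      have key : ∀ (x y : α) (p : G.Walk x y), x ∈ S → y ∈ S := by
        intro x y p
        induction p with
        | nil => exact id
        | cons hadj _ ih =>
          intro hx
          apply ih
          by_contra hv
          exact hcon _ hx _ hv hadj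
      exact hbS (key _ _ p (Finset.mem_image_of_mem f (by simp)))
    refine ⟨Function.update f (t + 1) a', ?_, ?_, ?_⟩
    · intro i hi
      by_cases h : i = t + 1
      · subst h
        rw [Function.update_self]
        have : G.connectedComponentMk a' = G.connectedComponentMk a :=
          (SimpleGraph.ConnectedComponent.sound haa.reachable).symm
        show G.connectedComponentMk a' = c
        rw [this]
        exact hSc a ha
      · rw [Function.update_of_ne h]
        exact h1 i (by omega)
    · have hnot : ∀ i ≤ t, f i ≠ a' := by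
        intro i hi hh
        exact ha' (hh ▸ Finset.mem_image_of_mem f (by rw [Finset.mem_range]; omega))
      intro i hi j hj hij
      by_cases h : i = t + 1 <;> by_cases h' : j = t + 1
      · omega
      · rw [h, Function.update_self, Function.update_of_ne h'] at hij
        exact absurd hij.symm (hnot j (by omega))
      · rw [h', Function.update_self, Function.update_of_ne h] at hij
        exact absurd hij (hnot i (by omega))
      · rw [Function.update_of_ne h, Function.update_of_ne h'] at hij
        exact h2 i (by omega) j (by omega) hij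
    · intro i hi1 hi2
      by_cases h : i = t + 1
      · subst h
        rw [Finset.mem_image] at ha
        obtain ⟨j, hj, rfl⟩ := ha
        rw [Finset.mem_range] at hj
        refine ⟨j, hj, ?_⟩
        rw [Function.update_self, Function.update_of_ne (by omega)]
        exact haa.symm
      · obtain ⟨j, hj, hadj⟩ := h3 i hi1 (by omega)
        refine ⟨j, hj, ?_⟩
        rw [Function.update_of_ne h, Function.update_of_ne (by omega)]
        exact hadj

/-- **Hadwiger's conjecture for exchange graphs of M-convex sets**, in the dominating form: if the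
exchange graph `G` of an M-convex set `B ⊆ ℤ^α` has no proper colouring with `k` colours, then `G`
has `k + 1` pairwise disjoint connected vertex sets `V 0, …, V k` such that for `i < j` every vertex
of `V j` has a neighbour in `V i`; in particular `G` has a `K_{k+1}` minor. -/
theorem result [Fintype α] (B : Set (α → ℤ)) (hB : MConvex B)
    (k : ℕ) (hk : ¬ (exchangeGraph B).Colorable k) :
    ∃ V : Fin (k + 1) → Set B,
      (∀ i, ((exchangeGraph B).induce (V i)).Connected) ∧
      (∀ i j, i ≠ j → Disjoint (V i) (V j)) ∧
      ∀ i j, i < j → ∀ x ∈ V j, ∃ y ∈ V i, (exchangeGraph B).Adj x y := by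
  classical
  have hne : Nonempty B := by
    by_contra h
    rw [not_nonempty_iff] at h
    exact hk (SimpleGraph.Colorable.of_isEmpty k)
  obtain ⟨x₀⟩ := hne
  rcases Nat.eq_zero_or_pos k with rfl | hkpos
  · refine ⟨fun _ => {z : B | (z : α → ℤ) = x₀}, ?_, ?_, ?_⟩
    · intro _
      apply connected hB (fun z => z = (x₀ : α → ℤ)) _ x₀ rfl
      intro x y z hx hy hz
      funext i
      have := hz i
      rw [hx, hy] at this
      omega
    · intro i j hij
      exact absurd (Fin.ext (by omega)) hij
    · intro i j hij
      have : (i : ℕ) < j := hij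
      omega
  · have : NeZero k := ⟨hkpos.ne'⟩
    obtain ⟨c, hc⟩ : ∃ c : (D B x₀).ConnectedComponent, k < c.supp.ncard := by
      by_contra hcon
      push Not at hcon
      exact hk (colorable hB x₀.2 k hcon)
    obtain ⟨f, -, hinj, hpre⟩ := ordering _ c k hc
    -- the auxiliary vectors
    have hw : ∀ i, ∃ w : α → ℤ, 1 ≤ i → i ≤ k → w ∈ B ∧
        (∀ a, (∀ j ≤ i, a ≠ f j) → w a = (x₀ : α → ℤ) a) ∧ w (f i) ≠ (x₀ : α → ℤ) (f i) := by
      intro i
      by_cases hi : 1 ≤ i ∧ i ≤ k
      · obtain ⟨j, hj, hne, hadj⟩ := hpre i hi.1 hi.2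
        rcases hadj with hadj | hadj
        · refine ⟨_, fun _ _ => ⟨hadj, ?_, ?_⟩⟩
          · intro a ha
            rw [ap, if_neg (ha i le_rfl), if_neg (ha j hj.le)]
            ring
          · rw [ap, if_pos rfl, if_neg hne]
            omega
        · refine ⟨_, fun _ _ => ⟨hadj, ?_, ?_⟩⟩
          · intro a ha
            rw [ap, if_neg (ha i le_rfl), if_neg (ha j hj.le)]
            ring
          · rw [ap, if_pos rfl, if_neg hne]
            omega
      · exact ⟨0, fun h1 h2 => absurd ⟨h1, h2⟩ hi⟩
    choose w hw using hw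
    let P : ℕ → (α → ℤ) → Prop := fun i x =>
      if i = 0 then x = x₀ else
        (∀ a, (∀ j ≤ i, a ≠ f j) → x a = (x₀ : α → ℤ) a) ∧
        ((w i (f i) < (x₀ : α → ℤ) (f i) ∧ x (f i) < (x₀ : α → ℤ) (f i)) ∨
          ((x₀ : α → ℤ) (f i) < w i (f i) ∧ (x₀ : α → ℤ) (f i) < x (f i)))
    have hPbet : ∀ i, Between (P i) := by
      intro i x y z hx hy hz
      by_cases hi : i = 0
      · simp only [P, if_pos hi] at hx hy ⊢
        funext a
        have := hz a
        rw [hx, hy] at this
        omega
      · simp only [P, if_neg hi] at hx hy ⊢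
        refine ⟨?_, ?_⟩
        · intro a ha
          have h1 := hx.1 a ha
          have h2 := hy.1 a ha
          have := hz a
          rw [h1, h2] at this
          omega
        · have h1 := hx.2
          have h2 := hy.2
          have := hz (f i)
          omega
    -- elements agree with `x₀` off the prefix
    have hagree : ∀ i x, P i x → ∀ a, (∀ j ≤ i, a ≠ f j) → x a = (x₀ : α → ℤ) a := by
      intro i x hx a ha
      by_cases hi : i = 0
      · simp only [P, if_pos hi] at hx
        rw [hx]
      · simp only [P, if_neg hi] at hx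
        exact hx.1 a ha
    have hwP : ∀ i, 1 ≤ i → i ≤ k → P i (w i) := by
      intro i h1 h2
      obtain ⟨-, h3, h4⟩ := hw i h1 h2
      simp only [P, if_neg (show i ≠ 0 by omega)]
      refine ⟨h3, ?_⟩
      omega
    have hoff : ∀ i j, j < i → i ≤ k → ∀ l ≤ j, f i ≠ f l := by
      intro i j hji hik l hl hh
      have := hinj i hik l (by omega) hh
      omega
    -- disjointness
    have hdis : ∀ i j, j < i → i ≤ k → ∀ x, P i x → P j x → False := by
      intro i j hji hik x hx hx'
      have h1 := hagree j x hx' (f i) (hoff i j hji hik)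
      simp only [P, if_neg (show i ≠ 0 by omega)] at hx
      have := hx.2
      omega
    -- domination
    have hdom : ∀ i j, j < i → i ≤ k → ∀ z : B, P j z →
        ∃ z' : B, P i z' ∧ (exchangeGraph B).Adj z z' := by
      intro i j hji hik z hz
      have h1i : 1 ≤ i := by omega
      obtain ⟨hwB, hw1, hw2⟩ := hw i h1i hik
      have hzi := hagree j z hz (f i) (hoff i j hji hik)
      have hzo : ∀ a, (∀ l ≤ i, a ≠ f l) → (z : α → ℤ) a = (x₀ : α → ℤ) a :=
        fun a ha => hagree j z hz a (fun l hl => ha l (by omega))
      rcases lt_or_gt_of_ne hw2 with hlt | hgt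
      · obtain ⟨v, hv, h3, -⟩ := hB z z.2 (w i) hwB (f i) (by omega)
        have hvne : f i ≠ v := by
          rintro rfl
          omega
        refine ⟨⟨_, h3⟩, ?_, ⟨f i, v, hvne, rfl⟩⟩
        simp only [P, if_neg (show i ≠ 0 by omega)]
        refine ⟨?_, ?_⟩
        · intro a ha
          have hav : a ≠ v := by
            rintro rfl
            rw [hw1 a ha, hzo a ha] at hv
            omega
          rw [ap, if_neg (ha i le_rfl), if_neg hav, hzo a ha]
          ring
        · left
          refine ⟨hlt, ?_⟩
          rw [ap, if_pos rfl, if_neg hvne]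
          omega
      · obtain ⟨v, hv, -, h3⟩ := hB (w i) hwB z z.2 (f i) (by omega)
        have hvne : f i ≠ v := by
          rintro rfl
          omega
        have hz' : (z : α → ℤ) + e (f i) - e v = (z : α → ℤ) - e v + e (f i) := by abel
        rw [hz'] at h3
        refine ⟨⟨_, h3⟩, ?_, ⟨v, f i, hvne.symm, rfl⟩⟩
        simp only [P, if_neg (show i ≠ 0 by omega)]
        refine ⟨?_, ?_⟩
        · intro a ha
          have hav : a ≠ v := by
            rintro rfl
            rw [hw1 a ha, hzo a ha] at hv
            omega
          rw [ap, if_neg (ha i le_rfl), if_neg hav, hzo a ha]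
          ring
        · right
          refine ⟨hgt, ?_⟩
          rw [ap, if_pos rfl, if_neg hvne]
          omega
    refine ⟨fun s => {z : B | P (k - s) z}, ?_, ?_, ?_⟩
    · intro s
      by_cases hs : k - (s : ℕ) = 0
      · refine connected hB (P (k - s)) (hPbet _) x₀ ?_
        simp only [P, if_pos hs]
      · obtain ⟨hwB, -, -⟩ := hw (k - s) (by omega) (by omega)
        exact connected hB (P (k - s)) (hPbet _) ⟨_, hwB⟩ (hwP _ (by omega) (by omega))
    · intro i j hij
      rw [Set.disjoint_left]
      intro z hz1 hz2
      have hij' : (i : ℕ) ≠ j := fun h => hij (Fin.ext h)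
      have hi := i.2
      have hj := j.2
      rcases Nat.lt_or_ge (i : ℕ) j with h | h
      · exact hdis (k - i) (k - j) (by omega) (by omega) z hz1 hz2
      · exact hdis (k - j) (k - i) (by omega) (by omega) z hz2 hz1
    · intro i j hij z hz
      have hij' : (i : ℕ) < j := hij
      have hj := j.2
      obtain ⟨z', h1, h2⟩ := hdom (k - i) (k - j) (by omega) (by omega) z hz
      exact ⟨z', h1, h2⟩

end Pool.Agent.Results.MP_b47bfb_co.ExchangeGraphs
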