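import Mathlib
import Pool.Agent.Q110.Grass.Minor
import Pool.Agent.Q110.Grass.Colour

/-!
# Hadwiger's conjecture for Grassmann graphs

`J_q(n, k)`: the `k`-dimensional subspaces of an `n`-dimensional space over the field with `q`
elements, adjacent when they meet in dimension `k - 1`. For `1 ≤ k < n` it has a `K_N` minor and is
`N`-colourable, `N = 1 + q + … + q ^ (n - 1)`.

Minor: recursion over `k`. In `V = K ⊕ U`, `U = C ⊕ D ⊕ K`, `dim C = k - 2`, the branch sets are the
preimages of the branch sets of `J_q(n - 1, k - 1)` in `U`, and for every `a ∈ D` and every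
functional `G` on `C ⊕ K` the set of the `k`-spaces
`{(G (c, μ) + ν f_d(a), c, μ a + ν d, μ)}`, one for every point `⟨d⟩` of `D`, where `f_d` is a
functional with `f_d(d) = 1`.

Colouring: identify `V` with the field with `q ^ n` elements; the colour of a subspace is the class
modulo `K^×` of the Moore determinant of a basis.
-/

set_option autoImplicit false

open Module
open scoped LinearAlgebra.Projectivization

namespace Pool.Agent.Results.MP_b47bfb_co.GrassmannGraphs

/-- `K_t` is a minor of `G`: there are `t` pairwise disjoint vertex sets, each inducing a connected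
subgraph, any two of them joined by an edge of `G`. -/
def HasCliqueMinor {V : Type} (G : SimpleGraph V) (t : ℕ) : Prop :=
  ∃ f : Fin t → Set V,
    (∀ i, (G.induce (f i)).Connected) ∧
    (∀ i j, i ≠ j → Disjoint (f i) (f j)) ∧
    (∀ i j, i ≠ j → ∃ u ∈ f i, ∃ v ∈ f j, G.Adj u v)

/-- The Grassmann graph: the `k`-dimensional subspaces of `V`, adjacent when they meet in a
`(k - 1)`-dimensional subspace. -/
def grassmann (K V : Type) [Field K] [AddCommGroup V] [Module K V] (k : ℕ) :
    SimpleGraph {L : Submodule K V // finrank K ↥L = k} where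
  Adj L M := finrank K ↥(L.1 ⊓ M.1) + 1 = k
  symm := ⟨fun L M h => by rwa [inf_comm]⟩
  loopless := ⟨fun L h => by
    have h1 : finrank K ↥L.1 = k := L.2
    rw [inf_idem] at h
    omega⟩

/-- the number of points of the projective space of `V` -/
noncomputable def points (K V : Type) [Field K] [AddCommGroup V] [Module K V] : ℕ :=
  ∑ i ∈ Finset.range (finrank K V), Nat.card K ^ i

theorem HasCliqueMinor.map {V W : Type} {G : SimpleGraph V} {H : SimpleGraph W} (φ : G →g H)
    (hφ : Function.Injective φ) {t : ℕ} (h : HasCliqueMinor G t) : HasCliqueMinor H t := by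
  obtain ⟨f, h1, h2, h3⟩ := h
  refine ⟨fun i => φ '' f i, fun i => ?_, fun i j hij => ?_, fun i j hij => ?_⟩
  · have hc := h1 i
    let ψ : G.induce (f i) →g H.induce (φ '' f i) :=
      { toFun := fun v => ⟨φ v.1, v.1, v.2, rfl⟩
        map_rel' := fun {a b} hab => by
          rw [SimpleGraph.induce_adj] at hab ⊢
          exact φ.map_adj hab }
    have hs : Function.Surjective ψ := by
      rintro ⟨w, v, hv, rfl⟩
      exact ⟨⟨v, hv⟩, rfl⟩
    have : Nonempty (↑(φ '' f i)) := hc.nonempty.map ψ
    refine SimpleGraph.Connected.mk (fun u v => ?_)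
    obtain ⟨u', rfl⟩ := hs u
    obtain ⟨v', rfl⟩ := hs v
    exact (hc.preconnected u' v').map ψ
  · exact (Set.disjoint_image_iff hφ).2 (h2 i j hij)
  · obtain ⟨u, hu, v, hv, huv⟩ := h3 i j hij
    exact ⟨φ u, ⟨u, hu, rfl⟩, φ v, ⟨v, hv, rfl⟩, φ.map_adj huv⟩

theorem HasCliqueMinor.mono {V : Type} {G : SimpleGraph V} {t t' : ℕ} (htt : t' ≤ t)
    (h : HasCliqueMinor G t) : HasCliqueMinor G t' := by
  obtain ⟨f, h1, h2, h3⟩ := h
  refine ⟨fun i => f (Fin.castLE htt i), fun i => h1 _, fun i j hij => h2 _ _ ?_,
    fun i j hij => h3 _ _ ?_⟩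
  · intro he
    exact hij (Fin.castLE_injective htt he)
  · intro he
    exact hij (Fin.castLE_injective htt he)

theorem minor (K V : Type) [Field K] [Finite K] [AddCommGroup V] [Module K V]
    [FiniteDimensional K V] (k : ℕ) (hk : 1 ≤ k) (hkn : k < finrank K V) :
    HasCliqueMinor (grassmann K V k) (points K V) := by
  obtain ⟨f, f1, f2, f3, f4, f5⟩ := Pool.Agent.Q110.Grass.branch K V hk hkn
  have hadj : ∀ L M : {L : Submodule K V // finrank K ↥L = k},
      Pool.Agent.Q110.Grass.Near k L.1 M.1 → (grassmann K V k).Adj L M := by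
    intro L M h
    have h1 : finrank K ↥L.1 = k := L.2
    have h2 : finrank K ↥M.1 = k := M.2
    have h3 := h.2
    have h4 : finrank K ↥(L.1 ⊓ M.1) ≤ k := (Submodule.finrank_mono inf_le_left).trans h1.le
    have h5 : finrank K ↥(L.1 ⊓ M.1) ≠ k := by
      intro h6
      have h7 : L.1 ⊓ M.1 = L.1 := Submodule.eq_of_le_of_finrank_eq inf_le_left (by rw [h6, h1])
      have h8 : L.1 ⊓ M.1 = M.1 := Submodule.eq_of_le_of_finrank_eq inf_le_right (by rw [h6, h2])
      exact h.1 (h7.symm.trans h8)
    change finrank K ↥(L.1 ⊓ M.1) + 1 = k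
    omega
  refine ⟨fun i => {L | L.1 ∈ f i}, fun i => ?_, fun i j hij => ?_, fun i j hij => ?_⟩
  · have hne : Nonempty ↥{L : {L : Submodule K V // finrank K ↥L = k} | L.1 ∈ f i} := by
      obtain ⟨L, hL⟩ := f2 i
      exact ⟨⟨⟨L, f1 i L hL⟩, hL⟩⟩
    refine SimpleGraph.Connected.mk (fun u v => ?_)
    by_cases huv : u = v
    · rw [huv]
    · apply SimpleGraph.Adj.reachable
      rw [SimpleGraph.induce_adj]
      exact hadj _ _ (f3 i _ u.2 _ v.2 (fun h => huv (Subtype.ext (Subtype.ext h))))
  · rw [Set.disjoint_left]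
    intro L h1 h2
    exact (Set.disjoint_left.1 (f4 i j hij)) h1 h2
  · obtain ⟨L, hL, M, hM, h⟩ := f5 i j hij
    exact ⟨⟨L, f1 i L hL⟩, hL, ⟨M, f1 j M hM⟩, hM, hadj _ _ h⟩

theorem colorable (K V : Type) [Field K] [Finite K] [AddCommGroup V] [Module K V]
    [FiniteDimensional K V] (k : ℕ) (hn : 1 ≤ finrank K V) :
    (grassmann K V k).Colorable (points K V) := by
  have := Fintype.ofFinite K
  obtain ⟨p, hp⟩ := CharP.exists K
  have : Fact p.Prime := ⟨CharP.char_is_prime K p⟩
  have : NeZero (finrank K V) := ⟨by omega⟩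
  have hE : finrank K (FiniteField.Extension K p (finrank K V)) = finrank K V :=
    FiniteField.finrank_extension K p (finrank K V)
  let e : V ≃ₗ[K] FiniteField.Extension K p (finrank K V) := LinearEquiv.ofFinrankEq _ _ hE.symm
  obtain ⟨c, hc⟩ := Pool.Agent.Q110.Grass.exists_colour
    (K := K) (E := FiniteField.Extension K p (finrank K V)) k
  have hcard : Nat.card (ℙ K (FiniteField.Extension K p (finrank K V))) = points K V :=
    Projectivization.card_of_finrank K _ hE
  have hfin : Finite (ℙ K (FiniteField.Extension K p (finrank K V))) := inferInstance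
  let C : (grassmann K V k).Coloring (ℙ K (FiniteField.Extension K p (finrank K V))) :=
    SimpleGraph.Coloring.mk
      (fun L => c (L.1.map (e : V →ₗ[K] FiniteField.Extension K p (finrank K V)))) (by
        intro L M h
        have h1 : finrank K ↥(L.1 ⊓ M.1) + 1 = k := h
        apply hc
        · rw [LinearEquiv.finrank_map_eq]; exact L.2
        · rw [LinearEquiv.finrank_map_eq]; exact M.2
        · rw [← Submodule.map_inf _ e.injective, LinearEquiv.finrank_map_eq]; exact h1)
  have := Fintype.ofFinite (ℙ K (FiniteField.Extension K p (finrank K V)))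
  have h2 := C.colorable
  rwa [← Nat.card_eq_fintype_card, hcard] at h2

/-- Hadwiger's conjecture for the Grassmann graphs and the graphs containing them with the same
number of colours, and Q1 for one colour more. -/
theorem result (K V : Type) [Field K] [Finite K] [AddCommGroup V] [Module K V]
    [FiniteDimensional K V] (k : ℕ) (hk : 1 ≤ k) (hkn : k < finrank K V) :
    -- a clique minor and a colouring of the same size
    HasCliqueMinor (grassmann K V k) (points K V) ∧
    (grassmann K V k).Colorable (points K V) ∧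
    -- Hadwiger's conjecture
    (∀ m : ℕ, ¬ (grassmann K V k).Colorable m → HasCliqueMinor (grassmann K V k) (m + 1)) ∧
    -- graphs containing a Grassmann graph
    (∀ (W : Type) (H : SimpleGraph W) (φ : grassmann K V k →g H), Function.Injective φ →
      (H.Colorable (points K V) → ∀ m : ℕ, ¬ H.Colorable m → HasCliqueMinor H (m + 1)) ∧
      (H.Colorable (points K V + 1) → ∀ m : ℕ, ¬ H.Colorable m → HasCliqueMinor H m)) := by
  have h1 := minor K V k hk hkn
  have h2 := colorable K V k (by omega)
  have hlt : ∀ {W : Type} {H : SimpleGraph W} {t m : ℕ}, H.Colorable t → ¬ H.Colorable m → m + 1 ≤ t := by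
    intro W H t m h3 h4
    by_contra hc
    exact h4 (h3.mono (by omega))
  refine ⟨h1, h2, fun m hm => h1.mono (hlt h2 hm), fun W H φ hφ => ⟨fun hH m hm => ?_, fun hH m hm => ?_⟩⟩
  · exact (h1.map φ hφ).mono (hlt hH hm)
  · have := hlt hH hm
    exact (h1.map φ hφ).mono (by omega)

end Pool.Agent.Results.MP_b47bfb_co.GrassmannGraphs
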