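import Mathlib
import Pool.Agent.Q110.SK.Main

/-!
# Hadwiger's conjecture for stable Kneser graphs and for all graphs between Schrijver and Kneser graphs

The `s`-stable Kneser graph has as vertices the `k`-subsets of the cycle `1, …, n` whose points have
pairwise cyclic distance at least `s`, adjacent when disjoint. It has a `K_t` minor, even a dominating
`K_t` model, `t = n - s (k - 1)`, and is `t`-colourable.

Proof. The graph for the cycle of length `m - 1` is an induced subgraph of the graph for the cycle of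
length `m`. The new vertices form a connected set (a set `{a_1 < … < a_(k-1) < m}` is moved to
`{s, a_1 + s, …, a_(k-2) + s, m}` through the set `{1, a_1 + 1, …, a_(k-2) + 1, m - s + 1}`), and every
old vertex is disjoint from a new one. For `n = s k` the graph is `K_s`.
-/

set_option autoImplicit false

open Finset

namespace Pool.Agent.Results.MP_b47bfb_co.StableKneserGraphs

/-- `K_t` is a minor of `G`: there are `t` pairwise disjoint vertex sets, each inducing a connected
subgraph, any two of them joined by an edge of `G`. -/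
def HasCliqueMinor {V : Type} (G : SimpleGraph V) (t : ℕ) : Prop :=
  ∃ f : Fin t → Set V,
    (∀ i, (G.induce (f i)).Connected) ∧
    (∀ i j, i ≠ j → Disjoint (f i) (f j)) ∧
    (∀ i j, i ≠ j → ∃ u ∈ f i, ∃ v ∈ f j, G.Adj u v)

/-- A dominating `K_t` model (Illingworth, Wood): moreover every vertex of `f i` has a neighbour in
`f j` for `i < j`. -/
def HasDominatingModel {V : Type} (G : SimpleGraph V) (t : ℕ) : Prop :=
  ∃ f : Fin t → Set V,
    (∀ i, (G.induce (f i)).Connected) ∧
    (∀ i j, i ≠ j → Disjoint (f i) (f j)) ∧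
    (∀ i j, i < j → ∀ u ∈ f i, ∃ v ∈ f j, G.Adj u v)

/-- `A` is a set of `k` points of the cycle `1, …, n`, any two at cyclic distance at least `s`. -/
structure IsStable (s k n : ℕ) (A : Finset ℕ) : Prop where
  sub : A ⊆ Icc 1 n
  card : A.card = k
  gap : ∀ a ∈ A, ∀ b ∈ A, a < b → a + s ≤ b ∧ b + s ≤ a + n

/-- The `s`-stable Kneser graph; `s = 2`: the Schrijver graph. -/
def stableKneser (s k n : ℕ) : SimpleGraph {A : Finset ℕ // IsStable s k n A} where
  Adj A B := A ≠ B ∧ Disjoint A.1 B.1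
  symm := ⟨fun _ _ h => ⟨h.1.symm, h.2.symm⟩⟩
  loopless := ⟨fun _ h => h.1 rfl⟩

/-- The Kneser graph: all `k`-subsets of `{1, …, n}`, adjacent when disjoint. -/
def kneser (k n : ℕ) : SimpleGraph {A : Finset ℕ // A ⊆ Icc 1 n ∧ A.card = k} where
  Adj A B := A ≠ B ∧ Disjoint A.1 B.1
  symm := ⟨fun _ _ h => ⟨h.1.symm, h.2.symm⟩⟩
  loopless := ⟨fun _ h => h.1 rfl⟩

theorem toQ {s k n : ℕ} (A : Finset ℕ) : Pool.Agent.Q110.SK.IsStable s k n A ↔ IsStable s k n A :=
  ⟨fun h => ⟨h.sub, h.card, h.gap⟩, fun h => ⟨h.sub, h.card, h.gap⟩⟩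

/-- the graph of the library -/
def isoOut (s k n : ℕ) : Pool.Agent.Q110.SK.SK s k n →g stableKneser s k n where
  toFun A := ⟨A.1, (toQ _).1 A.2⟩
  map_rel' := fun {A B} (hAB : A ≠ B ∧ Disjoint A.1 B.1) =>
    ⟨fun he => hAB.1 (Subtype.ext (Subtype.mk.inj he)), hAB.2⟩

/-- the graph of the library -/
def isoIn (s k n : ℕ) : stableKneser s k n →g Pool.Agent.Q110.SK.SK s k n where
  toFun A := ⟨A.1, (toQ _).2 A.2⟩
  map_rel' := fun {A B} (hAB : A ≠ B ∧ Disjoint A.1 B.1) =>
    ⟨fun he => hAB.1 (Subtype.ext (Subtype.mk.inj he)), hAB.2⟩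

/-- an injective homomorphism carries dominating models over -/
theorem HasDominatingModel.map {V W : Type} {G : SimpleGraph V} {H : SimpleGraph W} (φ : G →g H)
    (hφ : Function.Injective φ) {t : ℕ} (h : HasDominatingModel G t) : HasDominatingModel H t := by
  obtain ⟨f, h1, h2, h3⟩ := h
  refine ⟨fun i => φ '' f i, fun i => ?_, fun i j hij => ?_, fun i j hij => ?_⟩
  · have hc := h1 i
    let ψ : G.induce (f i) →g H.induce (φ '' f i) :=
      { toFun := fun v => ⟨φ v.1, v.1, v.2, rfl⟩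
        map_rel' := fun {a b} hab => by
          rw [SimpleGraph.induce_adj] at hab ⊢
          exact φ.map_adj hab }
    have hs : Function.Surjective ψ := by
      rintro ⟨w, v, hv, rfl⟩
      exact ⟨⟨v, hv⟩, rfl⟩
    have : Nonempty (↑(φ '' f i)) := hc.nonempty.map ψ
    refine SimpleGraph.Connected.mk (fun u v => ?_)
    obtain ⟨u', rfl⟩ := hs u
    obtain ⟨v', rfl⟩ := hs v
    exact (hc.preconnected u' v').map ψ
  · exact (Set.disjoint_image_iff hφ).2 (h2 i j hij)
  · rintro _ ⟨u, hu, rfl⟩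
    obtain ⟨v, hv, huv⟩ := h3 i j hij u hu
    exact ⟨φ v, ⟨v, hv, rfl⟩, φ.map_adj huv⟩

theorem HasDominatingModel.mono {V : Type} {G : SimpleGraph V} {t t' : ℕ} (htt : t' ≤ t)
    (h : HasDominatingModel G t) : HasDominatingModel G t' := by
  obtain ⟨f, h1, h2, h3⟩ := h
  refine ⟨fun i => f (Fin.castLE htt i), fun i => h1 _, fun i j hij => h2 _ _ ?_,
    fun i j hij => h3 _ _ ?_⟩
  · intro he
    exact hij (Fin.castLE_injective htt he)
  · exact hij

theorem HasDominatingModel.minor {V : Type} {G : SimpleGraph V} {t : ℕ}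
    (h : HasDominatingModel G t) : HasCliqueMinor G t := by
  obtain ⟨f, h1, h2, h3⟩ := h
  refine ⟨f, h1, h2, fun i j hij => ?_⟩
  rcases lt_or_gt_of_ne hij with h | h
  · obtain ⟨u, hu⟩ := (h1 i).nonempty
    obtain ⟨v, hv, huv⟩ := h3 i j h u hu
    exact ⟨u, hu, v, hv, huv⟩
  · obtain ⟨u, hu⟩ := (h1 j).nonempty
    obtain ⟨v, hv, huv⟩ := h3 j i h u hu
    exact ⟨v, hv, u, hu, huv.symm⟩

theorem kneser_colorable {k n : ℕ} (hk : 1 ≤ k) (hn : 2 * k ≤ n) :
    (kneser k n).Colorable (n - 2 * (k - 1)) := by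
  have hne : ∀ A : {A : Finset ℕ // A ⊆ Icc 1 n ∧ A.card = k}, A.1.Nonempty := by
    intro A
    rw [← card_pos, A.2.2]; omega
  refine ⟨SimpleGraph.Coloring.mk (fun A => (⟨min (A.1.min' (hne A)) (n - 2 * (k - 1)) - 1, by omega⟩ :
    Fin (n - 2 * (k - 1)))) ?_⟩
  intro A B hAB he
  have h1 : min (A.1.min' (hne A)) (n - 2 * (k - 1)) - 1 = min (B.1.min' (hne B)) (n - 2 * (k - 1)) - 1 :=
    congrArg Fin.val he
  have h2 := A.1.min'_mem (hne A)
  have h3 := B.1.min'_mem (hne B)
  have h4 := (mem_Icc.1 (A.2.1 h2)).1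
  have h5 := (mem_Icc.1 (B.2.1 h3)).1
  rcases Nat.lt_or_ge (A.1.min' (hne A)) (n - 2 * (k - 1)) with h | h
  · have h6 : A.1.min' (hne A) = B.1.min' (hne B) := by omega
    rw [h6] at h2
    exact (disjoint_left.1 hAB.2) h2 h3
  · have h7 : n - 2 * (k - 1) ≤ B.1.min' (hne B) := by omega
    have hA : A.1 ⊆ Icc (n - 2 * (k - 1)) n := by
      intro x hx
      have := A.1.min'_le x hx
      have := (mem_Icc.1 (A.2.1 hx)).2
      rw [mem_Icc]; omega
    have hB : B.1 ⊆ Icc (n - 2 * (k - 1)) n := by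
      intro x hx
      have := B.1.min'_le x hx
      have := (mem_Icc.1 (B.2.1 hx)).2
      rw [mem_Icc]; omega
    have h8 := card_le_card (union_subset hA hB)
    rw [card_union_of_disjoint hAB.2, A.2.2, B.2.2, Nat.card_Icc] at h8
    omega

theorem result :
    -- stable Kneser graphs: a dominating model and a colouring of the same size
    (∀ s k n : ℕ, 2 ≤ s → 1 ≤ k → s * k ≤ n →
      HasDominatingModel (stableKneser s k n) (n - s * (k - 1)) ∧
      (stableKneser s k n).Colorable (n - s * (k - 1)) ∧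
      ∀ m : ℕ, ¬ (stableKneser s k n).Colorable m → HasDominatingModel (stableKneser s k n) (m + 1)) ∧
    -- graphs containing them
    (∀ (s k n : ℕ), 2 ≤ s → 1 ≤ k → s * k ≤ n →
      ∀ (V : Type) (G : SimpleGraph V) (φ : stableKneser s k n →g G), Function.Injective φ →
        (G.Colorable (n - s * (k - 1)) →
          ∀ m : ℕ, ¬ G.Colorable m → HasDominatingModel G (m + 1) ∧ HasCliqueMinor G (m + 1)) ∧
        (G.Colorable (n - s * (k - 1) + 1) →
          ∀ m : ℕ, ¬ G.Colorable m → HasDominatingModel G m ∧ HasCliqueMinor G m)) ∧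
    -- all graphs between the Schrijver graph and the Kneser graph
    (∀ (k n : ℕ), 1 ≤ k → 2 * k ≤ n →
      ∀ (V : Type) (G : SimpleGraph V) (φ : stableKneser 2 k n →g G), Function.Injective φ →
        Nonempty (G →g kneser k n) →
          ∀ m : ℕ, ¬ G.Colorable m → HasDominatingModel G (m + 1) ∧ HasCliqueMinor G (m + 1)) := by
  have hmodel : ∀ s k n : ℕ, 2 ≤ s → 1 ≤ k → s * k ≤ n →
      HasDominatingModel (stableKneser s k n) (n - s * (k - 1)) := by
    intro s k n hs hk hn
    obtain ⟨f, h1, h2, h3⟩ := Pool.Agent.Q110.SK.model hs hk hn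
    have hm : HasDominatingModel (Pool.Agent.Q110.SK.SK s k n) (n - s * (k - 1)) := ⟨f, h1, h2, h3⟩
    refine hm.map (isoOut s k n) ?_
    intro A B hAB
    exact Subtype.ext (Subtype.mk.inj hAB)
  have hcol : ∀ s k n : ℕ, 2 ≤ s → 1 ≤ k → s * k ≤ n →
      (stableKneser s k n).Colorable (n - s * (k - 1)) := by
    intro s k n hs hk hn
    have h := Pool.Agent.Q110.SK.colorable (by omega : 1 ≤ s) hk hn
    exact h.of_hom (isoIn s k n)
  have hlt : ∀ {V : Type} {G : SimpleGraph V} {t m : ℕ}, G.Colorable t → ¬ G.Colorable m → m + 1 ≤ t := by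
    intro V G t m h1 h2
    by_contra hc
    exact h2 (h1.mono (by omega))
  refine ⟨fun s k n hs hk hn => ⟨hmodel s k n hs hk hn, hcol s k n hs hk hn, fun m hm => ?_⟩,
    fun s k n hs hk hn V G φ hφ => ⟨fun hG m hm => ?_, fun hG m hm => ?_⟩,
    fun k n hk hn V G φ hφ hG m hm => ?_⟩
  · exact (hmodel s k n hs hk hn).mono (hlt (hcol s k n hs hk hn) hm)
  · have h := ((hmodel s k n hs hk hn).map φ hφ).mono (hlt hG hm)
    exact ⟨h, h.minor⟩
  · have h1 := hlt hG hm
    have h := ((hmodel s k n hs hk hn).map φ hφ).mono (show m ≤ _ by omega)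
    exact ⟨h, h.minor⟩
  · obtain ⟨ψ⟩ := hG
    have hG : G.Colorable (n - 2 * (k - 1)) := (kneser_colorable hk hn).of_hom ψ
    have h := ((hmodel 2 k n le_rfl hk hn).map φ hφ).mono (hlt hG hm)
    exact ⟨h, h.minor⟩

end Pool.Agent.Results.MP_b47bfb_co.StableKneserGraphs
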